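import Mathlib
import Pool.Agent.H29.OuterMVDefs
import Pool.Agent.H29.OuterMV

set_option autoImplicit false

namespace Pool.Agent.Results.MP_a310d2_co.Unbounded

open Pool.Agent.H29.OuterMV

theorem result : ∀ a b : ℝ, ∃ (V : Type) (_ : Fintype V) (G : SimpleGraph V) (x : V),
    G.Connected ∧ (G.induce {x}ᶜ).Connected ∧
      a * (muo G : ℝ) + b < (muo (G.induce {x}ᶜ) : ℝ) := by
  intro a b
  obtain ⟨k, hk⟩ := exists_nat_gt (6 * |a| + b)
  haveI : Nonempty (Vx k) := ⟨X k⟩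
  haveI : Nonempty ↥({X k}ᶜ : Set (Vx k)) :=
    ⟨⟨⟨0, 0, by omega⟩, Vx.ne_iff.mpr (by simp [X])⟩⟩
  refine ⟨Vx k, Fintype.ofFinite _, Gr k, X k, ⟨pre k⟩, ⟨pre' k⟩, ?_⟩
  have h1 : (muo (Gr k) : ℝ) ≤ 6 := by exact_mod_cast upper k
  have h2 : (k : ℝ) ≤ muo ((Gr k).induce {X k}ᶜ) := by exact_mod_cast lower k
  have h3 : (0 : ℝ) ≤ muo (Gr k) := by positivity
  have h4 := le_abs_self a
  have h5 := abs_nonneg a
  nlinarith

end Pool.Agent.Results.MP_a310d2_co.Unbounded
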